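import Pool.Agent.Y55.Col.Many
import Pool.Agent.Y55.Col.Ind

/-!
# Weights obtained by repeated subdivision

Combination of the collision theorems with the bounds for `s ≥ 3 ^ r` and for `s = t ^ r` points.
-/

set_option autoImplicit false

namespace Pool.Agent.R332.TW

open MvPolynomial Finset Pool.Agent.H938R2 Pool.Agent.Y55.Col

/-- products of polynomials with multiplicities -/
lemma vanishes_prod {E : ℕ} {ι : Type} (s : Finset ι) (F : ι → MvPolynomial (Fin E) ℂ)
    (e : ι → ℕ) (p : Fin E → ℂ) (h : ∀ i ∈ s, VanishesToOrder (e i) p (F i)) :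
    VanishesToOrder (∑ i ∈ s, e i) p (∏ i ∈ s, F i) := by
  classical
  induction s using Finset.induction_on with
  | empty =>
    intro a ha
    simp at ha
  | insert a s ha ih =>
    rw [Finset.sum_insert ha, Finset.prod_insert ha]
    exact (h a (Finset.mem_insert_self a s)).mul
      (ih fun i hi => h i (Finset.mem_insert_of_mem hi))

lemma degree_lt_iff {E d : ℕ} (F : MvPolynomial (Fin E) ℂ) :
    (∀ a ∈ F.support, a.degree < d + 1) ↔ F.totalDegree ≤ d := by
  have e : ∀ a : Fin E →₀ ℕ, (a.sum fun _ e => e) = a.degree := fun a => rfl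
  unfold totalDegree
  rw [Finset.sup_le_iff]
  constructor
  · intro h a ha
    have := h a ha
    rw [e]
    omega
  · intro h a ha
    have := h a ha
    rw [e] at this
    omega

/-- From equal multiplicities to arbitrary ones: the product over the cyclic shifts. -/
theorem emp_sym {E N d : ℕ} [NeZero N] (m : Fin N → ℕ)
    (h : Emp E (N * d + 1) (Multiset.replicate N (∑ i, m i))) :
    Emp E (d + 1) ((univ : Finset (Fin N)).val.map m) := by
  classical
  obtain ⟨x, hx⟩ : ∃ x : Fin N → Fin E → ℂ, AffBot (N * d + 1) (fun _ => ∑ i, m i) x := by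
    apply Emp.fin
    rw [Multiset.map_const', Finset.card_val, Finset.card_univ, Fintype.card_fin]
    exact h
  by_contra hcon
  have key : ∀ s : Fin N, ∃ F : MvPolynomial (Fin E) ℂ, (∀ a ∈ F.support, a.degree < d + 1) ∧
      (∀ i, VanishesToOrder (m (i + s)) (x i) F) ∧ F ≠ 0 := by
    intro s
    by_contra hc
    push Not at hc
    apply hcon
    refine ⟨Fin N, inferInstance, fun i => m (i + s), x, ?_, hc⟩
    have h1 := Multiset.map_univ_val_equiv (Equiv.addRight s)
    have h2 : (univ : Finset (Fin N)).val.map (fun i => m (i + s)) =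
        ((univ : Finset (Fin N)).val.map (Equiv.addRight s)).map m := by
      rw [Multiset.map_map]
      rfl
    rw [h2, h1]
  choose F hF1 hF2 hF3 using key
  have hprod : ∏ s, F s ≠ 0 := Finset.prod_ne_zero_iff.2 fun s _ => hF3 s
  apply hprod
  apply hx
  · rw [degree_lt_iff]
    refine (totalDegree_finsetProd _ _).trans ?_
    calc ∑ s, (F s).totalDegree ≤ ∑ _s : Fin N, d :=
          Finset.sum_le_sum fun s _ => (degree_lt_iff _).1 (hF1 s)
      _ = N * d := by simp
  · intro i
    have h1 := vanishes_prod univ F (fun s => m (i + s)) (x i) fun s _ => hF2 s i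
    have h2 : ∑ s, m (i + s) = ∑ s, m s := Equiv.sum_comp (Equiv.addLeft i) m
    rw [h2] at h1
    exact h1

/-- The numbers of points in one subdivision. -/
def Adm (r s : ℕ) : Prop := 3 ^ r ≤ s ∨ ∃ t, 2 ≤ t ∧ s = t ^ r

lemma Adm.two_le {r s : ℕ} (hr : 1 ≤ r) (h : Adm r s) : 2 ≤ s := by
  rcases h with h | ⟨t, ht, rfl⟩
  · calc 2 ≤ 3 ^ 1 := by norm_num
      _ ≤ 3 ^ r := Nat.pow_le_pow_right (by norm_num) hr
      _ ≤ s := h
  · calc 2 ≤ t := ht
      _ = t ^ 1 := (pow_one t).symm
      _ ≤ t ^ r := Nat.pow_le_pow_right (by omega) hr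

lemma root_pow {E : ℕ} (t : ℕ) :
    (((t ^ (E + 1) : ℕ) : ℝ)) ^ ((1 : ℝ) / ((E + 1 : ℕ) : ℝ)) = t := by
  rw [Nat.cast_pow, one_div]
  exact Real.pow_rpow_inv_natCast (Nat.cast_nonneg t) (by omega)

/-- `σ = s ^ (1 / r)` -/
noncomputable def σ (r s : ℕ) : ℝ := (s : ℝ) ^ ((1 : ℝ) / (r : ℝ))

lemma σ_pos {r s : ℕ} (hs : 1 ≤ s) : 0 < σ r s :=
  Real.rpow_pos_of_pos (by exact_mod_cast hs) _

lemma one_le_σ {r s : ℕ} (hs : 1 ≤ s) : 1 ≤ σ r s :=
  Real.one_le_rpow (by exact_mod_cast hs) (by positivity)

lemma σ_pow {r s : ℕ} (hr : 1 ≤ r) : σ r s ^ r = s := by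
  unfold σ
  rw [one_div]
  exact Real.rpow_inv_natCast_pow (Nat.cast_nonneg s) (by omega)

lemma σ_pow_pred {E s : ℕ} (hs : 1 ≤ s) :
    (s : ℝ) ^ ((((E + 1 : ℕ) : ℝ) - 1) / ((E + 1 : ℕ) : ℝ)) = σ (E + 1) s ^ E := by
  unfold σ
  rw [← Real.rpow_natCast, ← Real.rpow_mul (Nat.cast_nonneg s)]
  congr 1
  push_cast
  field_simp
  ring

theorem asc_le : ∀ (N x y t : ℕ), 1 ≤ t → x ≤ t * y →
    x.ascFactorial N ≤ t ^ N * y.ascFactorial N := by
  intro N
  induction N with
  | zero => intro x y t _ _; simp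
  | succ N ih =>
    intro x y t ht hx
    rw [Nat.ascFactorial_succ, Nat.ascFactorial_succ]
    have h1 : N ≤ t * N := Nat.le_mul_of_pos_left N ht
    calc (x + N) * x.ascFactorial N ≤ (t * (y + N)) * (t ^ N * y.ascFactorial N) :=
        Nat.mul_le_mul (by rw [Nat.mul_add]; omega) (ih x y t ht hx)
      _ = t ^ (N + 1) * ((y + N) * y.ascFactorial N) := by ring

/-- No forms of degree `D < t m`, numerically. -/
theorem lowP {N D t m : ℕ} (ht : 1 ≤ t) (h : D < t * m) :
    (D + N).choose N ≤ t ^ N * (m + N - 1).choose N := by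
  have h1 := asc_le N (D + 1) m t ht h
  rw [Nat.ascFactorial_eq_factorial_mul_choose, Nat.ascFactorial_eq_factorial_mul_choose'] at h1
  have e : t ^ N * (N.factorial * (m + N - 1).choose N) =
    N.factorial * (t ^ N * (m + N - 1).choose N) := by ring
  rw [e] at h1
  exact Nat.le_of_mul_le_mul_left h1 (Nat.factorial_pos N)

/-- One node, no forms. -/
theorem emp_node {E : ℕ} (hE : 1 ≤ E) {M : Multiset ℕ} (hs : Adm (E + 1) M.card) (d : ℕ)
    (h : σ (E + 1) M.card ^ E * d < (M.sum : ℝ)) : Emp (E + 1) (d + 1) M := by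
  obtain ⟨k, m, rfl⟩ := exists_family M
  have hc : ((univ : Finset (Fin k)).val.map m).card = k := by simp
  have hsum : ((univ : Finset (Fin k)).val.map m).sum = ∑ i, m i := rfl
  rw [hc] at hs h
  rw [hsum] at h
  have hk1 : 1 ≤ k := by
    have := hs.two_le (by omega)
    omega
  rcases hs with hs | ⟨t, ht, rfl⟩
  · refine (many hE hs m d).1 ?_
    rw [σ_pow_pred hk1]
    push_cast at h
    exact h
  · have hσ : σ (E + 1) (t ^ (E + 1)) = t := root_pow t
    rw [hσ] at h
    have h1 : t ^ E * d < ∑ i, m i := by exact_mod_cast h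
    have hne : NeZero (t ^ (E + 1)) := ⟨by positivity⟩
    apply emp_sym
    have h2 : t ^ (E + 1) * d < t * ∑ i, m i := by
      calc t ^ (E + 1) * d = t * (t ^ E * d) := by ring
        _ < t * ∑ i, m i := Nat.mul_lt_mul_of_pos_left h1 (by omega)
    have h3 := emp_of_general _ (uniform_zero E t (∑ i, m i) (t ^ (E + 1) * d) (by omega)
      (Or.inr (Or.inl h2)) (by
        have h4 := lowP (N := E + 1) (by omega) h2
        have e : ∑ i, m i + (E + 1) - 1 = ∑ i, m i + E := by omega
        rw [e] at h4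
        exact h4))
    rw [Multiset.map_const', Finset.card_val, Finset.card_univ, Fintype.card_fin] at h3
    exact h3

/-- Smaller multiplicities. -/
theorem ind_lower {n D μ : ℕ} : ∀ (M R : Multiset ℕ), (∀ b ∈ M, b ≤ μ) →
    Ind n D (Multiset.replicate M.card μ + R) → Ind n D (M + R) := by
  intro M
  induction M using Multiset.induction_on with
  | empty => intro R _ h; simpa using h
  | cons b M ih =>
    intro R hb h
    rw [Multiset.card_cons, Multiset.replicate_succ, Multiset.cons_add] at h
    have h1 := h.collision (ind_one (n := n) (D := μ) (hb b (Multiset.mem_cons_self b M)))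
    have e1 : ({b} : Multiset ℕ) + (Multiset.replicate M.card μ + R) =
        Multiset.replicate M.card μ + (b ::ₘ R) := by
      rw [Multiset.singleton_add, Multiset.add_cons]
    rw [e1] at h1
    have h2 := ih (b ::ₘ R) (fun c hc => hb c (Multiset.mem_cons_of_mem hc)) h1
    rw [Multiset.cons_add]
    rw [Multiset.add_cons] at h2
    exact h2

/-- Independence, numerically. -/
theorem highP {N D t m : ℕ} (h : t * (m + N - 1) ≤ D + 1) (hN : 1 ≤ N) :
    t ^ N * (m + N - 1).choose N ≤ (D + N).choose N := by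
  have key : ∀ K : ℕ, t * (m + K - 1) ≤ D + 1 →
      t ^ K * m.ascFactorial K ≤ (D + 1).ascFactorial K := by
    intro K
    induction K with
    | zero => intro _; simp
    | succ K ih =>
      intro hK
      rw [Nat.ascFactorial_succ, Nat.ascFactorial_succ]
      have e : m + (K + 1) - 1 = m + K := by omega
      rw [e] at hK
      have h1 := ih ((Nat.mul_le_mul_left t (by omega)).trans hK)
      calc t ^ (K + 1) * ((m + K) * m.ascFactorial K)
          = (t * (m + K)) * (t ^ K * m.ascFactorial K) := by ring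
        _ ≤ (D + 1 + K) * (D + 1).ascFactorial K := Nat.mul_le_mul (by omega) h1
  have h1 := key N h
  rw [Nat.ascFactorial_eq_factorial_mul_choose, Nat.ascFactorial_eq_factorial_mul_choose'] at h1
  have e : t ^ N * (N.factorial * (m + N - 1).choose N) =
    N.factorial * (t ^ N * (m + N - 1).choose N) := by ring
  rw [e] at h1
  exact Nat.le_of_mul_le_mul_left h1 (Nat.factorial_pos N)

/-- One node, independent conditions. -/
theorem ind_node {E : ℕ} (hE : 1 ≤ E) {M : Multiset ℕ} (hs : Adm (E + 1) M.card) (d b : ℕ)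
    (hb : ∀ a ∈ M, a ≤ b) (h : σ (E + 1) M.card * ((b : ℝ) + E) + E ≤ d) :
    Ind E (d + 1) M := by
  have hk1 : 1 ≤ M.card := by
    have := hs.two_le (by omega)
    omega
  have h0 : Ind E (d + 1) (Multiset.replicate M.card b) := by
    rcases hs with hs | ⟨t, ht, hst⟩
    · have h1 := (many hE hs (fun _ => b) d).2 (fun _ => by
        have e : ((M.card : ℕ) : ℝ) ^ ((1 : ℝ) / ((E + 1 : ℕ) : ℝ)) = σ (E + 1) M.card := rfl
        rw [e]
        push_cast
        have : σ (E + 1) M.card * ((b : ℝ) + (E + 1) - 1) + (E + 1 - 1) =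
          σ (E + 1) M.card * ((b : ℝ) + E) + E := by ring
        rw [this]
        exact h)
      rw [Multiset.map_const', Finset.card_val, Finset.card_univ, Fintype.card_fin] at h1
      exact h1
    · rw [hst] at h ⊢
      have hσ : σ (E + 1) (t ^ (E + 1)) = t := root_pow t
      rw [hσ] at h
      have h1 : t * (b + E) + E ≤ d := by exact_mod_cast h
      apply ind_powers E t b d (by omega)
      · right; right; left
        have e : E + 1 - 1 = E := by omega
        rw [e]
        have e2 : t * (b + E) = t * b + t * E := by ring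
        have e3 : 2 * t * b = 2 * (t * b) := by ring
        have e4 : E * t = t * E := by ring
        rw [e3, e4]
        omega
      · have h2 := highP (N := E + 1) (D := d) (t := t) (m := b) (by
          have e : b + (E + 1) - 1 = b + E := by omega
          rw [e]; omega) (by omega)
        have e : b + (E + 1) - 1 = b + E := by omega
        rw [e] at h2
        exact h2
  have h2 := ind_lower (n := E) (D := d + 1) M 0 hb (by rwa [add_zero])
  rwa [add_zero] at h2

/-- The multisets of weights: the smallest class which contains `{1}` and is closed under the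
replacement of a weight `w` by `s` times the weight `w / s ^ (1 / r)`, if `s ≥ 3 ^ r` or if
`s = t ^ r` for some `t ≥ 2`. -/
inductive Weights (r : ℕ) : Multiset ℝ → Prop
  | one : Weights r {1}
  | split (w : ℝ) (M : Multiset ℝ) (s : ℕ) (hs : Adm r s) (h : Weights r (w ::ₘ M)) :
      Weights r (Multiset.replicate s (w / σ r s) + M)

lemma Weights.pos {r : ℕ} {W : Multiset ℝ} (h : Weights r W) (hr : 1 ≤ r) :
    ∀ w ∈ W, 0 < w ∧ w ≤ 1 := by
  induction h with
  | one => intro w hw; rw [Multiset.mem_singleton] at hw; rw [hw]; norm_num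
  | split w M s hs h ih =>
    intro v hv
    rw [Multiset.mem_add] at hv
    have hs1 : 1 ≤ s := by have := hs.two_le hr; omega
    rcases hv with hv | hv
    · rw [Multiset.eq_of_mem_replicate hv]
      obtain ⟨h1, h2⟩ := ih w (Multiset.mem_cons_self w M)
      refine ⟨div_pos h1 (σ_pos hs1), ?_⟩
      rw [div_le_one (σ_pos hs1)]
      exact h2.trans (one_le_σ hs1)
    · exact ih v (Multiset.mem_cons_of_mem hv)

lemma Weights.sum {r : ℕ} {W : Multiset ℝ} (h : Weights r W) (hr : 1 ≤ r) :
    (W.map fun w => w ^ r).sum = 1 := by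
  induction h with
  | one => simp
  | split w M s hs h ih =>
    have hs1 : 1 ≤ s := by have := hs.two_le hr; omega
    rw [Multiset.map_cons, Multiset.sum_cons] at ih
    rw [Multiset.map_add, Multiset.sum_add, Multiset.map_replicate, Multiset.sum_replicate,
      div_pow, σ_pow hr, nsmul_eq_mul]
    have hs0 : (s : ℝ) ≠ 0 := by positivity
    rw [mul_div_cancel₀ _ hs0]
    exact ih

/-- Decomposition of a multiset according to a decomposition of its image. -/
lemma split_map {α β : Type} (f : α → β) : ∀ (A B : Multiset β) (Q : Multiset α),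
    Q.map f = A + B → ∃ Q1 Q2, Q = Q1 + Q2 ∧ Q1.map f = A ∧ Q2.map f = B := by
  classical
  intro A
  induction A using Multiset.induction_on with
  | empty => intro B Q h; exact ⟨0, Q, by simp, by simp, by simpa using h⟩
  | cons a A ih =>
    intro B Q h
    rw [Multiset.cons_add, ← Multiset.map_eq_cons] at h
    obtain ⟨q, hq, hqa, h2⟩ := h
    obtain ⟨Q1, Q2, h3, h4, h5⟩ := ih B _ h2
    refine ⟨q ::ₘ Q1, Q2, ?_, ?_, h5⟩
    · rw [Multiset.cons_add, ← h3, Multiset.cons_erase hq]
    · rw [Multiset.map_cons, hqa, h4]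

/-- No forms. -/
theorem emp_weights {E : ℕ} (hE : 1 ≤ E) {W : Multiset ℝ} (h : Weights (E + 1) W) :
    ∀ (Q : Multiset (ℝ × ℕ)), Q.map Prod.fst = W → ∀ d : ℕ,
      (d : ℝ) < (Q.map fun x => x.1 ^ E * (x.2 : ℝ)).sum →
      Emp (E + 1) (d + 1) (Q.map Prod.snd) := by
  induction h with
  | one =>
    intro Q hQ d hd
    obtain ⟨q, rfl⟩ : ∃ q, Q = {q} := by
      rw [← Multiset.card_eq_one, ← Multiset.card_map Prod.fst, hQ]
      rfl
    simp only [Multiset.map_singleton, Multiset.singleton_inj, Multiset.sum_singleton] at hQ hd ⊢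
    rw [hQ, one_pow, one_mul] at hd
    have hd' : d < q.2 := by exact_mod_cast hd
    refine ⟨Unit, inferInstance, fun _ => q.2, fun _ _ => 0, by simp, ?_⟩
    intro F hF hv
    exact one (W := d + 1) (b := q.2) (by omega) _ hF (hv ())
  | split w M s hs h ih =>
    intro Q hQ d hd
    have hs1 : 1 ≤ s := by have := hs.two_le (by omega); omega
    obtain ⟨Q1, Q2, rfl, h1, h2⟩ := split_map _ _ _ _ hQ
    have hw := (h.pos (by omega) w (Multiset.mem_cons_self w M)).1
    have hcard : Q1.card = s := by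
      rw [← Multiset.card_map Prod.fst, h1, Multiset.card_replicate]
    have hfst : ∀ x ∈ Q1, x.1 = w / σ (E + 1) s := by
      intro x hx
      have h3 : x.1 ∈ Q1.map Prod.fst := Multiset.mem_map_of_mem _ hx
      rw [h1] at h3
      exact Multiset.eq_of_mem_replicate h3
    set S : ℕ := (Q1.map Prod.snd).sum with hS
    have hsum1 : (Q1.map fun x => x.1 ^ E * (x.2 : ℝ)).sum = w ^ E * ((S : ℝ) / σ (E + 1) s ^ E) := by
      have e1 : (Q1.map fun x => x.1 ^ E * (x.2 : ℝ)) =
          Q1.map fun x => (w / σ (E + 1) s) ^ E * (x.2 : ℝ) :=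
        Multiset.map_congr rfl fun x hx => by rw [hfst x hx]
      rw [e1, Multiset.sum_map_mul_left, hS, div_pow]
      have e2 : (Q1.map fun x : ℝ × ℕ => (x.2 : ℝ)).sum = (((Q1.map Prod.snd).sum : ℕ) : ℝ) := by
        rw [Nat.cast_multiset_sum, Multiset.map_map]
        rfl
      rw [e2]
      ring
    have hσ : 0 < σ (E + 1) s := σ_pos hs1
    have hσE : 0 < σ (E + 1) s ^ E := pow_pos hσ E
    set μ : ℕ := ⌈(S : ℝ) / σ (E + 1) s ^ E⌉₊ with hμ
    have hμ1 : (S : ℝ) / σ (E + 1) s ^ E ≤ μ := Nat.le_ceil _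
    have h3 := ih ((w, μ) ::ₘ Q2) (by rw [Multiset.map_cons, h2]) d (by
      rw [Multiset.map_add, Multiset.sum_add, hsum1] at hd
      rw [Multiset.map_cons, Multiset.sum_cons]
      refine hd.trans_le ?_
      have := mul_le_mul_of_nonneg_left hμ1 (pow_pos hw E).le
      linarith)
    rw [Multiset.map_cons] at h3
    have h4 : Emp (E + 1) μ (Q1.map Prod.snd) := by
      rcases Nat.eq_zero_or_pos μ with h0 | h0
      · rw [h0]
        obtain ⟨k, m, hm⟩ := exists_family (Q1.map Prod.snd)
        refine ⟨Fin k, inferInstance, m, fun _ _ => 0, hm, ?_⟩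
        intro F hF _
        rw [← support_eq_empty, Finset.eq_empty_iff_forall_notMem]
        intro a ha
        exact Nat.not_lt_zero _ (hF a ha)
      · obtain ⟨μ', hμ'⟩ : ∃ μ', μ = μ' + 1 := ⟨μ - 1, by omega⟩
        rw [hμ']
        have hc : (Q1.map Prod.snd).card = s := by rw [Multiset.card_map, hcard]
        apply emp_node hE
        · rw [hc]; exact hs
        · rw [hc]
          have h5 : (μ' : ℝ) < (S : ℝ) / σ (E + 1) s ^ E := by
            rw [← Nat.lt_ceil, ← hμ]; omega
          rw [lt_div_iff₀ hσE] at h5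
          rw [mul_comm]
          exact h5
    have h5 := h3.collision h4
    rw [Multiset.map_add]
    exact h5

/-- Independent conditions. -/
theorem ind_weights {E : ℕ} (hE : 1 ≤ E) {W : Multiset ℝ} (h : Weights (E + 1) W) :
    ∀ (Q : Multiset (ℝ × ℕ)), Q.map Prod.fst = W → ∀ d : ℕ,
      (∀ x ∈ Q, (x.2 : ℝ) + 2 * (E + 1 : ℕ) * (W.card : ℕ) ≤ x.1 * d) →
      Ind E (d + 1) (Q.map Prod.snd) := by
  induction h with
  | one =>
    intro Q hQ d hd
    obtain ⟨q, rfl⟩ : ∃ q, Q = {q} := by
      rw [← Multiset.card_eq_one, ← Multiset.card_map Prod.fst, hQ]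
      rfl
    simp only [Multiset.map_singleton, Multiset.singleton_inj, Multiset.mem_singleton,
      forall_eq] at hQ hd ⊢
    rw [hQ, one_mul, Multiset.card_singleton] at hd
    have hd' : q.2 + 2 * (E + 1) * 1 ≤ d := by exact_mod_cast hd
    exact ind_one (by omega)
  | split w M s hs h ih =>
    intro Q hQ d hd
    have hs2 : 2 ≤ s := hs.two_le (by omega)
    have hs1 : 1 ≤ s := by omega
    obtain ⟨Q1, Q2, rfl, h1, h2⟩ := split_map _ _ _ _ hQ
    have hw := (h.pos (by omega) w (Multiset.mem_cons_self w M)).1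
    have hcard : Q1.card = s := by
      rw [← Multiset.card_map Prod.fst, h1, Multiset.card_replicate]
    have hfst : ∀ x ∈ Q1, x.1 = w / σ (E + 1) s := by
      intro x hx
      have h3 : x.1 ∈ Q1.map Prod.fst := Multiset.mem_map_of_mem _ hx
      rw [h1] at h3
      exact Multiset.eq_of_mem_replicate h3
    have hσ : 0 < σ (E + 1) s := σ_pos hs1
    have hσ1 : 1 ≤ σ (E + 1) s := one_le_σ hs1
    have hcW : (Multiset.replicate s (w / σ (E + 1) s) + M).card = s + M.card := by
      rw [Multiset.card_add, Multiset.card_replicate]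
    rw [hcW] at hd
    -- the largest multiplicity of the group
    obtain ⟨x0, hx0, hmax⟩ : ∃ x ∈ Q1, ∀ y ∈ Q1, y.2 ≤ x.2 := by
      have hne : Q1 ≠ 0 := by
        intro h0
        rw [h0] at hcard
        simp at hcard
        omega
      obtain ⟨y, hy, hy2⟩ := Multiset.exists_max_image (fun x : ℝ × ℕ => x.2) hne
      exact ⟨y, hy, hy2⟩
    set b : ℕ := x0.2 with hb
    set D : ℕ := ⌈σ (E + 1) s * ((b : ℝ) + E) + E⌉₊ with hD
    have hD1 : σ (E + 1) s * ((b : ℝ) + E) + E ≤ D := Nat.le_ceil _
    have hD2 : (D : ℝ) < σ (E + 1) s * ((b : ℝ) + E) + E + 1 :=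
      Nat.ceil_lt_add_one (by positivity)
    have h3 := ih ((w, D + 1) ::ₘ Q2) (by rw [Multiset.map_cons, h2]) d (by
      intro x hx
      rw [Multiset.card_cons]
      rw [Multiset.mem_cons] at hx
      rcases hx with rfl | hx
      · have h5 := hd x0 (Multiset.mem_add.2 (Or.inl hx0))
        rw [hfst x0 hx0] at h5
        push_cast at h5 ⊢
        have h6 : σ (E + 1) s * ((b : ℝ) + 2 * (E + 1) * (s + M.card)) ≤ w * d := by
          have h7 := mul_le_mul_of_nonneg_left h5 hσ.le
          calc σ (E + 1) s * ((b : ℝ) + 2 * (E + 1) * (s + M.card)) ≤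
              σ (E + 1) s * (w / σ (E + 1) s * d) := h7
            _ = w * d := by field_simp
        have hs2' : (2 : ℝ) ≤ s := by exact_mod_cast hs2
        have hM0 : (0 : ℝ) ≤ (M.card : ℝ) := Nat.cast_nonneg _
        have hE0 : (0 : ℝ) ≤ (E : ℝ) := Nat.cast_nonneg _
        have h8 : 2 * ((E : ℝ) + 1) * (M.card + 1) + (E + 2) ≤
            2 * (E + 1) * (s + M.card) - E := by nlinarith
        have h9 : 0 ≤ 2 * ((E : ℝ) + 1) * (s + M.card) - E := by nlinarith
        have h10 : 2 * ((E : ℝ) + 1) * (s + M.card) - E ≤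
            σ (E + 1) s * (2 * (E + 1) * (s + M.card) - E) := by nlinarith
        have h11 : σ (E + 1) s * ((b : ℝ) + 2 * (E + 1) * (s + M.card)) =
            σ (E + 1) s * ((b : ℝ) + E) + σ (E + 1) s * (2 * (E + 1) * (s + M.card) - E) := by
          ring
        linarith
      · have h5 := hd x (Multiset.mem_add.2 (Or.inr hx))
        push_cast at h5 ⊢
        have hs2' : (2 : ℝ) ≤ s := by exact_mod_cast hs2
        have hE0 : (0 : ℝ) ≤ (E : ℝ) := Nat.cast_nonneg _
        have h8 : 2 * ((E : ℝ) + 1) * (M.card + 1) ≤ 2 * (E + 1) * (s + M.card) := by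
          apply mul_le_mul_of_nonneg_left _ (by positivity)
          linarith
        linarith)
    rw [Multiset.map_cons] at h3
    have h4 : Ind E (D + 1) (Q1.map Prod.snd) := by
      have hc : (Q1.map Prod.snd).card = s := by rw [Multiset.card_map, hcard]
      refine ind_node hE (by rw [hc]; exact hs) D b ?_ (by rw [hc]; exact hD1)
      intro a ha
      obtain ⟨y, hy, rfl⟩ := Multiset.mem_map.1 ha
      exact hmax y hy
    have h5 := h3.collision h4
    rw [Multiset.map_add]
    exact h5

end Pool.Agent.R332.TW
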