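import Pool.Agent.H1R3.Det.Weyl

/-!
# Frequency of the visits of an irrational rotation to an arc
-/

set_option autoImplicit false

namespace Pool.Agent.R332.TW

open MeasureTheory Filter Topology Set Pool.Agent.H1R3.Det

lemma avg_rotation {α : ℝ} (hα : Irrational α) (β : ℝ) {n : ℤ} (hn : n ≠ 0) :
    Tendsto (fun M : ℕ => avg (fun m : ℕ => ((α * m + β : ℝ) : Circ))
      (fun z => (fourier n z : ℂ)) M) atTop (𝓝 0) := by
  obtain ⟨ρ, hρ⟩ : ∃ ρ : ℂ, ρ = fourier n ((α : ℝ) : Circ) := ⟨_, rfl⟩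
  have hterm : ∀ m : ℕ, (fourier n (((α * m + β : ℝ)) : Circ) : ℂ) =
      fourier n ((β : ℝ) : Circ) * ρ ^ m := by
    intro m
    rw [hρ, fourier_coe_apply, fourier_coe_apply, fourier_coe_apply, ← Complex.exp_nat_mul,
      ← Complex.exp_add]
    congr 1
    push_cast
    ring
  have hρ1 : ρ ≠ 1 := by
    intro h
    rw [hρ, fourier_coe_apply, Complex.exp_eq_one_iff] at h
    obtain ⟨k, hk⟩ := h
    have h2 : (2 * Real.pi * Complex.I : ℂ) ≠ 0 := by
      have := Real.pi_ne_zero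
      simp [this]
    have h3 : ((n : ℂ) * α) = k := by
      have : (2 * Real.pi * Complex.I : ℂ) * (n * α) = (2 * Real.pi * Complex.I) * k := by
        rw [mul_comm _ (k : ℂ), ← hk]
        push_cast
        ring
      exact mul_left_cancel₀ h2 this
    have h4 : (n : ℝ) * α = k := by exact_mod_cast h3
    have hn' : (n : ℝ) ≠ 0 := by exact_mod_cast hn
    apply hα
    refine ⟨(k : ℚ) / n, ?_⟩
    push_cast
    rw [← h4]
    field_simp
  have hnorm : ‖ρ‖ = 1 := by
    rw [hρ, fourier_apply]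
    exact Circle.norm_coe _
  have hnβ : ‖(fourier n ((β : ℝ) : Circ) : ℂ)‖ = 1 := by
    rw [fourier_apply]
    exact Circle.norm_coe _
  have hb : ∀ M : ℕ, ‖avg (fun m : ℕ => ((α * m + β : ℝ) : Circ))
      (fun z => (fourier n z : ℂ)) M‖ ≤ (2 / ‖ρ - 1‖) / M := by
    intro M
    unfold avg
    rw [norm_div, Complex.norm_natCast]
    apply div_le_div_of_nonneg_right _ (Nat.cast_nonneg M)
    have h1 : ∑ m ∈ Finset.range M, (fourier n (((α * m + β : ℝ)) : Circ) : ℂ) =
        fourier n ((β : ℝ) : Circ) * ((ρ ^ M - 1) / (ρ - 1)) := by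
      rw [← geom_sum_eq hρ1, Finset.mul_sum]
      exact Finset.sum_congr rfl fun m _ => hterm m
    rw [h1, norm_mul, hnβ, one_mul, norm_div]
    apply div_le_div_of_nonneg_right _ (norm_nonneg _)
    calc ‖ρ ^ M - 1‖ ≤ ‖ρ ^ M‖ + ‖(1 : ℂ)‖ := norm_sub_le _ _
      _ = 2 := by rw [norm_pow, hnorm]; norm_num
  refine squeeze_zero_norm hb ?_
  exact tendsto_const_div_atTop_nhds_zero_nat _

open Classical in
/-- An irrational rotation visits an arc of length `c₀` with frequency less than `c > c₀`. -/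
theorem rotation_freq {α : ℝ} (hα : Irrational α) (β : ℝ) {c₀ c : ℝ} (h0 : 0 ≤ c₀) (hc : c₀ < c) :
    ∀ᶠ M : ℕ in atTop, (((Finset.range M).filter (fun m : ℕ =>
      ∃ z : ℤ, 0 ≤ α * m + β - z ∧ α * m + β - z ≤ c₀)).card : ℝ) < c * M := by
  have hK : IsClosed (Metric.closedBall ((c₀ / 2 : ℝ) : Circ) (c₀ / 2)) := Metric.isClosed_closedBall
  have hv : volume (Metric.closedBall ((c₀ / 2 : ℝ) : Circ) (c₀ / 2)) < ENNReal.ofReal c := by
    rw [AddCircle.volume_closedBall]
    have hc0 : 0 < c := lt_of_le_of_lt h0 hc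
    rw [ENNReal.ofReal_lt_ofReal_iff hc0]
    exact lt_of_le_of_lt (min_le_right _ _) (by linarith)
  have h1 := freq_lt_of_closed (fun m : ℕ => ((α * m + β : ℝ) : Circ)) (fun M => M) tendsto_id
    (fun n hn => avg_rotation hα β hn) hK hv
  filter_upwards [h1, eventually_gt_atTop 0] with M hM hM0
  have hM0' : (0 : ℝ) < M := by exact_mod_cast hM0
  rw [div_lt_iff₀ hM0'] at hM
  refine lt_of_le_of_lt ?_ hM
  have hsub : ((Finset.range M).filter (fun m : ℕ =>
      ∃ z : ℤ, 0 ≤ α * m + β - z ∧ α * m + β - z ≤ c₀)) ⊆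
      ((Finset.range M).filter (fun m : ℕ =>
        (((α * m + β : ℝ)) : Circ) ∈ Metric.closedBall ((c₀ / 2 : ℝ) : Circ) (c₀ / 2))) := by
    intro m hm
    rw [Finset.mem_filter] at hm ⊢
    refine ⟨hm.1, ?_⟩
    obtain ⟨z, hz1, hz2⟩ := hm.2
    rw [Metric.mem_closedBall, dist_eq_norm]
    have e : (((α * m + β : ℝ)) : Circ) - ((c₀ / 2 : ℝ) : Circ) =
        ((α * m + β - z - c₀ / 2 : ℝ) : Circ) := by
      have hz : (((z : ℝ)) : Circ) = 0 := by
        have := AddCircle.coe_period (1 : ℝ)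
        have h2 : ((z : ℝ) : Circ) = z • (((1 : ℝ)) : Circ) := by
          rw [← AddCircle.coe_zsmul]
          simp
        rw [h2, this, smul_zero]
      rw [AddCircle.coe_sub, AddCircle.coe_sub, hz, sub_zero]
    rw [e, AddCircle.norm_eq]
    have h3 := round_le ((1 : ℝ)⁻¹ * (α * m + β - z - c₀ / 2)) 0
    rw [inv_one, one_mul, Int.cast_zero, sub_zero] at h3
    rw [inv_one, one_mul, mul_one]
    refine h3.trans ?_
    rw [abs_le]
    constructor <;> linarith
  exact_mod_cast Finset.card_le_card hsub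

end Pool.Agent.R332.TW
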